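import Pool.Agent.Helper44.Sub.Doub
import Pool.Agent.Helper44.Sub.B11
import Pool.Agent.Helper44.Sub.B7
import Pool.Agent.Helper44.Sub.EndB14
import Pool.Agent.Helper44.Sub.Defs2

/-!
Blocks S7a, S7b, S7c of MP_bdf835_lc (second stage): doubling groups have finite asymptotic
dimension in the leader form, the leader form gives the standard form, finitely generated
commutative groups.
-/

set_option autoImplicit false

namespace Pool.Agent.Helper44.Sub

/-- The right multiplication action of a group on itself, with all sets measurable. -/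
def regAct (Γ : Type) [Group Γ] : @RAct Γ Γ ⊤ _ :=
  letI : MeasurableSpace Γ := ⊤
  { act := fun x s => x * s
    one := mul_one
    mul := fun x s t => mul_assoc x s t
    meas := fun _ => measurable_from_top }

/-- S7a (doubling groups have finite asymptotic dimension). -/
theorem GAs_of_doubling {Γ : Type} [Group Γ] [Countable Γ] (M : Subgroup Γ) (h : Doubling M) :
    ∃ D, GAs ↥M D := by
  classical
  letI : MeasurableSpace Γ := ⊤
  have hsep : Sep (regAct Γ) := by
    intro E hE
    obtain ⟨q, c, hc⟩ := colG Γ E hE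
    exact ⟨q, c, fun b => MeasurableSpace.measurableSet_top, fun x s hs => hc x s hs⟩
  obtain ⟨D, hD⟩ := FA_of_doubling hsep (orbG (regAct Γ) M) (fun _ => 1)
    (fun b => MeasurableSpace.measurableSet_top) {1} (fun x => Finset.mem_singleton_self _) M h
    (fun x s hs => by
      have hs' : s ∈ M := hs
      simpa using hs')
  refine ⟨D, fun R => ?_⟩
  obtain ⟨T, c, χ, -, -, hχT, hχM, hc⟩ := hD (R.image Subtype.val)
  have hfin : {m : ↥M | (m : Γ) ∈ T}.Finite :=
    Set.Finite.preimage Subtype.val_injective.injOn T.finite_toSet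
  refine ⟨hfin.toFinset, fun q => c q.1, fun q => ⟨χ q.1, hχM q.1⟩, ?_, ?_⟩
  · intro q
    rw [Set.Finite.mem_toFinset]
    exact hχT q.1
  · intro q r hr hcq
    apply Subtype.ext
    exact hc q.1 r.1 (Finset.mem_image_of_mem _ hr) r.2 hcq

/-- S7b -/
theorem finAsdim_of_GAs {Q : Type} [Group Q] (h : ∃ D, GAs Q D) : FinAsdim Q := by
  classical
  obtain ⟨D, hD⟩ := h
  refine ⟨D, fun R => ?_⟩
  obtain ⟨B, c, χ, hχB, hχ⟩ := hD R
  refine ⟨(B ×ˢ B).image (fun a => a.1 * a.2⁻¹), c, ?_⟩
  intro n p hp
  have key : ∀ m, m ≤ n → χ (p 0) = (p 0)⁻¹ * p m * χ (p m) := by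
    intro m
    induction m with
    | zero =>
      intro _
      simp
    | succ m ih =>
      intro hm
      obtain ⟨h1, h2⟩ := hp m hm
      have h3 := hχ (p m) ((p m)⁻¹ * p (m + 1)) h1 (by
        rw [mul_inv_cancel_left]
        exact h2.symm)
      rw [mul_inv_cancel_left] at h3
      rw [ih (Nat.le_of_succ_le hm), h3]
      group
  rw [Finset.mem_image]
  refine ⟨(χ (p 0), χ (p n)), Finset.mem_product.2 ⟨hχB _, hχB _⟩, ?_⟩
  show χ (p 0) * (χ (p n))⁻¹ = _
  rw [key n le_rfl]
  group

/-- A finitely generated group is countable. -/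
theorem countable_of_closure {Q : Type} [Group Q] {S : Set Q} (hS : S.Finite)
    (hcl : Subgroup.closure S = ⊤) : Countable Q := by
  have : Countable ↥S := hS.countable.to_subtype
  have hsurj : Function.Surjective (FreeGroup.lift (Subtype.val : ↥S → Q)) := by
    rw [← MonoidHom.range_eq_top, FreeGroup.range_lift_eq_closure, Subtype.range_coe]
    exact hcl
  exact hsurj.countable

/-- S7c -/
theorem finAsdim_of_comm {Q : Type} [Group Q] (hfg : Group.FG Q) (hc : ∀ a b : Q, a * b = b * a) :
    FinAsdim Q := by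
  classical
  obtain ⟨S, hS, hfin⟩ := Group.fg_iff.1 hfg
  have : Countable Q := countable_of_closure hfin hS
  have h1 := doubling_of_comm S hfin (fun a _ b _ => hc a b)
  rw [hS] at h1
  obtain ⟨D, hD⟩ := GAs_of_doubling (⊤ : Subgroup Q) h1
  refine finAsdim_of_GAs ⟨D, fun R => ?_⟩
  obtain ⟨B, c, χ, hB, hχ⟩ := hD (R.image fun q => ⟨q, Subgroup.mem_top q⟩)
  refine ⟨B.image Subtype.val, fun q => c ⟨q, Subgroup.mem_top q⟩,
    fun q => (χ ⟨q, Subgroup.mem_top q⟩).1, ?_, ?_⟩
  · intro q
    exact Finset.mem_image_of_mem _ (hB _)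
  · intro q r hr hcq
    have h2 := hχ ⟨q, Subgroup.mem_top q⟩ ⟨r, Subgroup.mem_top r⟩
      (Finset.mem_image_of_mem _ hr) hcq
    exact congrArg Subtype.val h2

end Pool.Agent.Helper44.Sub
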